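import Pool.Agent.H.MP_f7573e_al.C

set_option autoImplicit false
open Pool.Agent.H.MP_f7573e_al

namespace Pool.Agent.Results.MP_f7573e_al.DegreeFive

theorem result : ∃ (R : Type) (_ : NonUnitalRing R) (f : FreeSemigroup ℕ →₀ ℤ),
    f.support.sup FreeSemigroup.length = 5 ∧ f.support.gcd f = 1 ∧
    (∀ r : ℕ → R, (f.sum fun w c => c • FreeSemigroup.lift r w) = 0) ∧
    ∀ α : Equiv.Perm (Fin 5) → ℤ,
      (∀ r : Fin 5 → R, ∑ σ, α σ • (r (σ 0) * r (σ 1) * r (σ 2) * r (σ 3) * r (σ 4)) = 0) → ∀ σ, Even (α σ) := by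
  refine ⟨NonUnitalSubring.closure (W : Set Q), inferInstance, ff, le_antisymm (Finset.sup_le fun w h => ?_)
    (Finset.le_sup (f := FreeSemigroup.length) (b := (⟨0, [1, 2, 3, 3]⟩ : FreeSemigroup ℕ))
      (by rw [Finsupp.mem_support_iff, ff_apply]; decide)), ?_,
    fun r => ?_, fun α h τ => ?_⟩
  · by_contra h'
    rw [Finsupp.mem_support_iff, ff_apply] at h
    refine h (List.sum_eq_zero ?_)
    simp only [List.mem_map]
    rintro _ ⟨p, hp, rfl⟩
    exact if_neg fun e : p.1 = w => h' (e ▸ (by decide : ∀ p ∈ Lf, p.1.length ≤ 5) p hp)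
  · have h : ff ⟨1, [0, 2, 3]⟩ = 1 := by rw [ff_apply]; decide
    have := Finset.gcd_dvd (f := ff) (Finsupp.mem_support_iff.mpr (h ▸ one_ne_zero))
    rw [← Finset.normalize_gcd, normalize_eq_one]
    exact isUnit_of_dvd_one (h ▸ this)
  · have m : ∀ i, (r i).1 ∈ AddSubgroup.closure (W : Set Q) := fun i => by
      simpa using NonUnitalSubring.mem_closure_iff.mp (r i).2
    rw [← Finsupp.linearCombination_apply, ff, map_list_sum]
    refine Subtype.ext (Eq.trans ?_ (f4_zero _ (m 0) _ (m 1) _ (m 2) _ (m 3)))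
    simp [Lf, FreeSemigroup.lift_mk_eq_foldl, f4, E, L0, mul_assoc]
    abel
  · have h1 := congrArg Subtype.val (h fun i => ⟨π (mon [τ⁻¹ i]), NonUnitalSubring.subset_closure ⟨_, by simp, rfl⟩⟩)
    have h2 : π (∑ σ, α σ • mon [(τ⁻¹ * σ) 0, (τ⁻¹ * σ) 1, (τ⁻¹ * σ) 2, (τ⁻¹ * σ) 3, (τ⁻¹ * σ) 4]) = 0 := by
      refine Eq.trans ?_ h1
      have e : ∀ a b c d e : ℕ, mon [a, b, c, d, e] = mon [a] * mon [b] * mon [c] * mon [d] * mon [e] := by
        simp [← mon_append]
      simp only [map_sum, map_zsmul, e, map_mul, Equiv.Perm.mul_apply]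
      simp
    have h3 := (π_zero _).mp h2 [] []
    simp only [show mon [] = 1 from rfl, one_mul, mul_one, map_sum, map_smul, lam_mon, tab_perm, inv_mul_eq_one] at h3
    simp at h3
    rw [Int.even_iff]
    omega

end Pool.Agent.Results.MP_f7573e_al.DegreeFive
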